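import Mathlib
import Pool.Agent.H748R2.DC.Defs
import Pool.Agent.H748R2.DC.Spec
import Pool.Agent.H748R2.DC.BASIC
import Pool.Agent.H748R2.DC.AVG
import Pool.Agent.H748R2.DC.CS
import Pool.Agent.H748R2.DC.MULTI
import Pool.Agent.H748R2.DC.CLASS
import Pool.Agent.H748R2.DC.GOOD
import Pool.Agent.H748R2.DC.UP
import Pool.Agent.H748R2.DC.ONE
import Pool.Agent.H748R2.DC.CUBE
import Pool.Agent.H748R2.DC.BLICH
import Pool.Agent.H748R2.DC.INTB
import Pool.Agent.H748R2.DC.BALL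
import Pool.Agent.H748R2.DC.Fin

namespace Pool.Agent.Results.MP_9210c2_an.BallUpperBound

open Pool.Agent.H748R2.DC

/-- `c(S_n)` decays exponentially. -/
theorem result (n : ℕ) (hn : 1 ≤ n) :
    cK (Metric.ball (0 : E n) 1) ≤ ((n : ℝ) + 2) / 2 * (2 : ℝ) ^ (-(n : ℝ) / 2) :=
  (t_ASYM (t_CS t_BASIC t_AVG) (t_GOOD t_BASIC t_CLASS (t_MULTI t_BASIC)) (t_UP t_BASIC)
    (t_ONE t_BASIC) t_CUBE (t_BALL t_BLICH t_INTB) n hn).2

end Pool.Agent.Results.MP_9210c2_an.BallUpperBound
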