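import Mathlib
import Pool.Agent.H748R2.DC.Defs
import Pool.Agent.H748R2.DC.Spec
import Pool.Agent.H748R2.DC.BASIC
import Pool.Agent.H748R2.DC.AVG
import Pool.Agent.H748R2.DC.CS
import Pool.Agent.H748R2.DC.MULTI
import Pool.Agent.H748R2.DC.CLASS
import Pool.Agent.H748R2.DC.GOOD
import Pool.Agent.H748R2.DC.UP
import Pool.Agent.H748R2.DC.ONE
import Pool.Agent.H748R2.DC.CUBE
import Pool.Agent.H748R2.DC.WEAK
import Pool.Agent.H748R2.DC.TRANS
import Pool.Agent.H748R2.DC.ONEDIMR
import Pool.Agent.H748R2.DC.Fin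

namespace Pool.Agent.Results.MP_9210c2_an.WeakType

open Pool.Agent.H748R2.DC

/-- `c(K)` is at most the reciprocal of the best constant in the weak type (1,1) inequality for the
centred maximal operator of `K`, with equality for intervals. -/
theorem result :
    (∀ (n : ℕ), 1 ≤ n → ∀ (K : Set (E n)), IsBody K → cK K * weakConst K ≤ 1) ∧
    cK (Q 1) * weakConst (Q 1) = 1 :=
  t_WK (t_CS t_BASIC t_AVG) (t_GOOD t_BASIC t_CLASS (t_MULTI t_BASIC)) (t_UP t_BASIC)
    (t_ONE t_BASIC) t_CUBE (t_WEAK t_BASIC) t_TRANS t_ONEDIMR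

end Pool.Agent.Results.MP_9210c2_an.WeakType
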